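import Pool.Agent.H26.NO.Targets

/-! Row AS of board nok_modules (MP_0cd084_nt). -/

set_option autoImplicit false

open Finset Filter

namespace Pool.Agent.H23.NOK

open Pool.Agent.H26.NO

theorem pf_AS : T_AS := by
  intro K
  set K' : ℝ := max K 1 with hK'
  have hKK : K ≤ K' := le_max_left _ _
  have hK1 : 1 ≤ K' := le_max_right _ _
  have hK0 : 0 < K' := by linarith
  have hE : Tendsto el atTop atTop := Real.tendsto_log_atTop.comp Real.tendsto_log_atTop
  have hA : ∀ᶠ e : ℝ in atTop, K' * Real.log e ^ 2 ≤ e := by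
    have h := (Real.isLittleO_pow_log_id_atTop (n := 2)).bound (show 0 < 1 / K' by positivity)
    filter_upwards [h, eventually_ge_atTop (1 : ℝ)] with e he he1
    rw [Real.norm_eq_abs, Real.norm_eq_abs, abs_of_nonneg (sq_nonneg _), id,
      abs_of_nonneg (by linarith)] at he
    have : K' * Real.log e ^ 2 ≤ K' * (1 / K' * e) := mul_le_mul_of_nonneg_left he hK0.le
    have h2 : K' * (1 / K' * e) = e := by field_simp
    linarith
  have hB : ∀ᶠ e : ℝ in atTop, K' * e ^ 4 ≤ Real.exp (e / 2) := by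
    have h := (isLittleO_pow_exp_pos_mul_atTop 4 (show (0 : ℝ) < 1 / 2 by norm_num)).bound
      (show 0 < 1 / K' by positivity)
    filter_upwards [h, eventually_ge_atTop (1 : ℝ)] with e he he1
    rw [Real.norm_eq_abs, Real.norm_eq_abs, abs_of_nonneg (by positivity),
      abs_of_nonneg (Real.exp_pos _).le] at he
    have : K' * e ^ 4 ≤ K' * (1 / K' * Real.exp (1 / 2 * e)) :=
      mul_le_mul_of_nonneg_left he hK0.le
    have h2 : K' * (1 / K' * Real.exp (1 / 2 * e)) = Real.exp (e / 2) := by
      rw [show (1 : ℝ) / 2 * e = e / 2 by ring]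
      field_simp
    linarith
  have hC : ∀ᶠ e : ℝ in atTop, K' ≤ Real.log e := Real.tendsto_log_atTop.eventually_ge_atTop K'
  have hall : ∀ᶠ x : ℝ in atTop, (K' ≤ x ∧ 1 ≤ el x) ∧ K' * Real.log (el x) ^ 2 ≤ el x ∧
      K' * el x ^ 4 ≤ Real.exp (el x / 2) ∧ K' ≤ Real.log (el x) := by
    filter_upwards [eventually_ge_atTop K', hE.eventually_ge_atTop 1, hE.eventually hA,
      hE.eventually hB, hE.eventually hC] with x h1 h2 h3 h4 h5
    exact ⟨⟨h1, h2⟩, h3, h4, h5⟩
  obtain ⟨x₀, hx₀⟩ := eventually_atTop.1 (hall.and (eventually_ge_atTop (3 : ℝ)))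
  refine ⟨x₀, ?_⟩
  intro x hx
  obtain ⟨⟨⟨h1, h2⟩, h3, h4, h5⟩, h6⟩ := hx₀ x hx
  have hx0 : 0 < x := by linarith
  have hL : 1 < Real.log x := by
    rw [Real.lt_log_iff_exp_lt hx0]
    have := Real.exp_one_lt_d9
    linarith
  have hL0 : 0 < Real.log x := by linarith
  have hs0 : 0 < sx x := Real.sqrt_pos.mpr hL0
  have hs2 : sx x ^ 2 = Real.log x := Real.sq_sqrt hL0.le
  have hls : Real.log (sx x) = el x / 2 := by
    unfold sx el
    exact Real.log_sqrt hL0.le
  have hse : sx x = Real.exp (el x / 2) := by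
    rw [← hls, Real.exp_log hs0]
  have he0 : 0 < el x := by linarith
  have hle : 1 ≤ Real.log (el x) := by linarith
  have hg : gx x * el x = sx x * Real.log (el x) := by
    have : gx x = sx x * Real.log (el x) / el x := rfl
    rw [this, div_mul_cancel₀ _ (ne_of_gt he0)]
  have hKs : K' * el x ^ 4 ≤ sx x := by rw [hse]; exact h4
  refine ⟨hKK.trans h1, hKK.trans h5, ?_, ?_, hs0, hs2, hls, ?_, hg, ?_, ?_⟩
  · refine le_trans ?_ h3
    exact mul_le_mul_of_nonneg_right hKK (sq_nonneg _)
  · refine le_trans ?_ hKs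
    exact mul_le_mul_of_nonneg_right hKK (by positivity)
  · rw [hs2, Real.exp_log hx0]
  · refine hKK.trans ?_
    have h7 : K' * el x ≤ gx x * el x := by
      rw [hg]
      have h8 : K' * el x ≤ K' * el x ^ 4 := by
        refine mul_le_mul_of_nonneg_left ?_ hK0.le
        calc el x = el x ^ 1 := (pow_one _).symm
          _ ≤ el x ^ 4 := pow_le_pow_right₀ h2 (by norm_num)
      have h9 : sx x * 1 ≤ sx x * Real.log (el x) := mul_le_mul_of_nonneg_left hle hs0.le
      linarith
    exact le_of_mul_le_mul_right h7 he0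
  · have hg0 : 0 ≤ gx x := by
      have : gx x = sx x * Real.log (el x) / el x := rfl
      rw [this]
      positivity
    have h7 : K * gx x ≤ K' * gx x := mul_le_mul_of_nonneg_right hKK hg0
    refine h7.trans ?_
    have h8 : K' * gx x * el x ≤ sx x * el x := by
      rw [mul_assoc, hg]
      have h9 : K' * Real.log (el x) ≤ K' * Real.log (el x) ^ 2 := by
        refine mul_le_mul_of_nonneg_left ?_ hK0.le
        nlinarith
      calc K' * (sx x * Real.log (el x)) = sx x * (K' * Real.log (el x)) := by ring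
        _ ≤ sx x * el x := mul_le_mul_of_nonneg_left (by linarith) hs0.le
    exact le_of_mul_le_mul_right h8 he0

end Pool.Agent.H23.NOK
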