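import Pool.Agent.H26.NO.Targets

/-! Row MG of board nok_modules (MP_0cd084_nt). -/

set_option autoImplicit false

open Finset

namespace Pool.Agent.H23.NOK

open Pool.Agent.H26.NO

theorem mg_geom (t : ℝ) (h0 : 0 ≤ t) (h1 : t ≤ 1 / 2) (K : ℕ) :
    ∑ j ∈ range K, t ^ j ≤ Real.exp (2 * t) := by
  have h2 : t < 1 := by linarith
  have h3 : ∑ j ∈ range K, t ^ j ≤ ∑' j : ℕ, t ^ j :=
    (summable_geometric_of_lt_one h0 h2).sum_le_tsum _ (fun i _ => pow_nonneg h0 i)
  rw [tsum_geometric_of_lt_one h0 h2] at h3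
  refine h3.trans ?_
  rw [inv_le_comm₀ (by linarith) (Real.exp_pos _), ← Real.exp_neg]
  have h4 : Real.exp (-(2 * t)) * Real.exp (2 * t) = 1 := by
    rw [← Real.exp_add]; simp
  have h5 : 1 + 2 * t ≤ Real.exp (2 * t) := by
    have := Real.add_one_le_exp (2 * t); linarith
  have h6 : 0 < Real.exp (-(2 * t)) := Real.exp_pos _
  have h7 : Real.exp (-(2 * t)) * (1 + 2 * t) ≤ Real.exp (-(2 * t)) * Real.exp (2 * t) :=
    mul_le_mul_of_nonneg_left h5 h6.le
  rw [h4] at h7
  have h8 : 1 ≤ (1 - t) * (1 + 2 * t) := by nlinarith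
  by_contra hc
  push Not at hc
  have h9 : (1 - t) * (1 + 2 * t) < Real.exp (-(2 * t)) * (1 + 2 * t) :=
    mul_lt_mul_of_pos_right hc (by linarith)
  linarith

theorem mg_split (a0 : ℕ) (m : Multiset ℕ) :
    m = Multiset.replicate (m.count a0) a0 + m.filter (fun b => ¬ b = a0) := by
  have h := Multiset.filter_add_not (fun b => b = a0) m
  rw [Multiset.filter_eq' m a0] at h
  exact h.symm

theorem mg_aux (v : ℕ → ℝ) (A : Finset ℕ) : (∀ a ∈ A, 0 ≤ v a ∧ v a ≤ 1 / 2) →
    ∀ F : Finset (Multiset ℕ), (∀ m ∈ F, ∀ a ∈ m, a ∈ A) →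
      ∑ m ∈ F, (m.map v).prod ≤ Real.exp (2 * ∑ a ∈ A, v a) := by
  classical
  induction A using Finset.induction_on with
  | empty =>
    intro _ F hF
    have hs : F ⊆ {0} := by
      intro m hm
      rw [mem_singleton]
      exact Multiset.eq_zero_of_forall_notMem
        (fun a ha => absurd (hF m hm a ha) (Finset.notMem_empty a))
    calc ∑ m ∈ F, (m.map v).prod ≤ ∑ m ∈ ({0} : Finset (Multiset ℕ)), (m.map v).prod :=
          Finset.sum_le_sum_of_subset_of_nonneg hs (by
            intro i hi _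
            rw [mem_singleton] at hi
            subst hi
            simp)
      _ = 1 := by simp
      _ ≤ _ := by simp
  | insert a0 A ha0 ih =>
    intro hv F hF
    have hv0 := hv a0 (mem_insert_self _ _)
    have hvA : ∀ a ∈ A, 0 ≤ v a ∧ v a ≤ 1 / 2 := fun a ha => hv a (mem_insert_of_mem ha)
    set φ : Multiset ℕ → ℕ × Multiset ℕ := fun m => (m.count a0, m.filter (fun b => ¬ b = a0))
      with hφ
    set K : ℕ := F.sup (fun m => m.count a0) + 1 with hK
    set F' : Finset (Multiset ℕ) := F.image (fun m => m.filter (fun b => ¬ b = a0)) with hF'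
    have hinj : Set.InjOn φ (F : Set (Multiset ℕ)) := by
      intro m _ m' _ h
      simp only [hφ, Prod.mk.injEq] at h
      rw [mg_split a0 m, mg_split a0 m', h.1, h.2]
    have hmaps : F.image φ ⊆ range K ×ˢ F' := by
      intro y hy
      rw [mem_image] at hy
      obtain ⟨m, hm, rfl⟩ := hy
      rw [mem_product]
      constructor
      · rw [mem_range]
        exact Nat.lt_succ_of_le (Finset.le_sup (f := fun m : Multiset ℕ => m.count a0) hm)
      · exact mem_image_of_mem _ hm
    have hA' : ∀ m ∈ F', ∀ a ∈ m, a ∈ A := by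
      intro m hm a ha
      rw [hF', mem_image] at hm
      obtain ⟨m0, hm0, rfl⟩ := hm
      rw [Multiset.mem_filter] at ha
      have := hF m0 hm0 a ha.1
      rw [mem_insert] at this
      rcases this with h | h
      · exact absurd h ha.2
      · exact h
    have hterm : ∀ m : Multiset ℕ, (m.map v).prod = v a0 ^ (φ m).1 * (((φ m).2).map v).prod := by
      intro m
      conv_lhs => rw [mg_split a0 m]
      rw [Multiset.map_add, Multiset.prod_add, Multiset.map_replicate, Multiset.prod_replicate]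
    have hnn : ∀ m ∈ F', 0 ≤ (m.map v).prod := by
      intro m hm
      refine Multiset.prod_nonneg ?_
      intro x hx
      rw [Multiset.mem_map] at hx
      obtain ⟨a, ha, rfl⟩ := hx
      exact (hvA a (hA' m hm a ha)).1
    calc ∑ m ∈ F, (m.map v).prod
        = ∑ m ∈ F, v a0 ^ (φ m).1 * (((φ m).2).map v).prod :=
          Finset.sum_congr rfl (fun m _ => hterm m)
      _ = ∑ y ∈ F.image φ, v a0 ^ y.1 * ((y.2).map v).prod :=
          (Finset.sum_image (f := fun y : ℕ × Multiset ℕ => v a0 ^ y.1 * ((y.2).map v).prod)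
            (fun x hx y hy h => hinj hx hy h)).symm
      _ ≤ ∑ y ∈ range K ×ˢ F', v a0 ^ y.1 * ((y.2).map v).prod := by
          refine Finset.sum_le_sum_of_subset_of_nonneg hmaps ?_
          intro y hy _
          rw [mem_product] at hy
          exact mul_nonneg (pow_nonneg hv0.1 _) (hnn _ hy.2)
      _ = (∑ j ∈ range K, v a0 ^ j) * ∑ m ∈ F', (m.map v).prod := by
          rw [Finset.sum_product, Finset.sum_mul]
          refine Finset.sum_congr rfl (fun j _ => ?_)
          rw [Finset.mul_sum]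
      _ ≤ Real.exp (2 * v a0) * Real.exp (2 * ∑ a ∈ A, v a) :=
          mul_le_mul (mg_geom _ hv0.1 hv0.2 K) (ih hvA F' hA') (Finset.sum_nonneg hnn)
            (Real.exp_pos _).le
      _ = Real.exp (2 * ∑ a ∈ insert a0 A, v a) := by
          rw [← Real.exp_add, Finset.sum_insert ha0]
          congr 1
          ring

theorem pf_MG : T_MG := fun A v F h1 h2 => mg_aux v A h1 F h2

end Pool.Agent.H23.NOK
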