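import Pool.Agent.H26.NO.Targets

/-! Row SR of board nok_modules (MP_0cd084_nt). -/

set_option autoImplicit false

open Finset

namespace Pool.Agent.H23.NOK

open Pool.Agent.H26.NO
open Pool.Agent.H73.NK (SPM)

theorem sr_two (m : Multiset ℕ) : (∀ a ∈ m, 2 ≤ a) →
    (m = 0 ∨ (∃ a, m = {a}) ∨ (2 * (m.map (fun a => a - 1)).sum ≤ m.prod ∧ 2 ≤ m.prod)) := by
  induction m using Multiset.induction_on with
  | empty => intro _; exact Or.inl rfl
  | cons c m ih =>
    intro h
    have hc : 2 ≤ c := h c (Multiset.mem_cons_self _ _)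
    have hm : ∀ a ∈ m, 2 ≤ a := fun a ha => h a (Multiset.mem_cons_of_mem ha)
    obtain ⟨d, rfl⟩ : ∃ d, c = d + 2 := ⟨c - 2, by omega⟩
    rcases ih hm with h0 | ⟨a, ha⟩ | ⟨h1, h2⟩
    · right; left
      exact ⟨d + 2, by rw [h0]; rfl⟩
    · right; right
      have ha2 : 2 ≤ a := hm a (by rw [ha]; exact Multiset.mem_singleton_self _)
      obtain ⟨b, rfl⟩ : ∃ b, a = b + 2 := ⟨a - 2, by omega⟩
      rw [ha]
      simp only [Multiset.map_cons, Multiset.sum_cons, Multiset.prod_cons, Multiset.map_singleton,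
        Multiset.sum_singleton, Multiset.prod_singleton]
      have e1 : d + 2 - 1 = d + 1 := by omega
      have e2 : b + 2 - 1 = b + 1 := by omega
      rw [e1, e2]
      constructor <;> nlinarith [Nat.zero_le (d * b)]
    · right; right
      simp only [Multiset.map_cons, Multiset.sum_cons, Multiset.prod_cons]
      have e1 : d + 2 - 1 = d + 1 := by omega
      rw [e1]
      constructor <;> nlinarith [Nat.zero_le (d * m.prod)]

theorem sr_prod (k : ℕ) (hk : 2 ≤ k) (m : Multiset ℕ) (hm : m ∈ Sl k) : m.prod ≤ 2 * k := by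
  obtain ⟨h1, h2⟩ := hm
  rcases sr_two m h1 with h0 | ⟨a, ha⟩ | ⟨h3, _⟩
  · rw [h0] at h2
    simp at h2
    omega
  · have ha2 : 2 ≤ a := h1 a (by rw [ha]; exact Multiset.mem_singleton_self _)
    rw [ha] at h2
    simp at h2
    omega
  · omega

theorem sr_card (m : Multiset ℕ) (h : ∀ a ∈ m, 2 ≤ a) : 2 ^ (Multiset.card m) ≤ m.prod := by
  induction m using Multiset.induction_on with
  | empty => simp
  | cons c m ih =>
    have hc : 2 ≤ c := h c (Multiset.mem_cons_self _ _)
    have hm : ∀ a ∈ m, 2 ≤ a := fun a ha => h a (Multiset.mem_cons_of_mem ha)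
    rw [Multiset.card_cons, Multiset.prod_cons, pow_succ, mul_comm]
    exact Nat.mul_le_mul hc (ih hm)

theorem sr_finite (k : ℕ) (hk : 2 ≤ k) : (Sl k).Finite := by
  set M : Multiset ℕ := (2 * k) • (range (2 * k + 1)).val with hM
  refine (M.powerset.toFinset.finite_toSet).subset ?_
  intro m hm
  have hp := sr_prod k hk m hm
  obtain ⟨h1, _⟩ := hm
  rw [Finset.mem_coe, Multiset.mem_toFinset, Multiset.mem_powerset, Multiset.le_iff_count]
  intro a
  rw [hM, Multiset.count_nsmul]
  by_cases ha : a ∈ m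
  · have hpos : 0 < m.prod := by
      have := sr_card m h1
      have h3 : 0 < 2 ^ (Multiset.card m) := by positivity
      omega
    have h2 : a ≤ 2 * k := (Nat.le_of_dvd hpos (Multiset.dvd_prod ha)).trans hp
    have h3 : a ∈ (range (2 * k + 1)).val := by
      rw [Finset.mem_val, mem_range]; omega
    rw [Multiset.count_eq_one_of_mem (Finset.nodup _) h3, mul_one]
    have h4 : Multiset.card m < 2 ^ (Multiset.card m) := Nat.lt_two_pow_self
    have h5 := sr_card m h1
    have h6 := Multiset.count_le_card a m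
    omega
  · rw [Multiset.count_eq_zero_of_notMem ha]
    exact Nat.zero_le _

theorem sr_filter (s : Multiset ℕ) : (∀ a ∈ s, 0 < a) →
    s.prod = (s.filter (fun a => 2 ≤ a)).prod ∧
    s.sum = Multiset.card s + ((s.filter (fun a => 2 ≤ a)).map (fun a => a - 1)).sum := by
  induction s using Multiset.induction_on with
  | empty => intro _; simp
  | cons c s ih =>
    intro h
    have hc : 0 < c := h c (Multiset.mem_cons_self _ _)
    have hs : ∀ a ∈ s, 0 < a := fun a ha => h a (Multiset.mem_cons_of_mem ha)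
    obtain ⟨i1, i2⟩ := ih hs
    by_cases h2 : 2 ≤ c
    · rw [Multiset.filter_cons_of_pos _ h2]
      generalize Multiset.filter (fun a => 2 ≤ a) s = F at i1 i2 ⊢
      rw [Multiset.map_cons, Multiset.sum_cons, Multiset.sum_cons, Multiset.prod_cons,
        Multiset.prod_cons, Multiset.card_cons, ← i1, i2]
      refine ⟨rfl, ?_⟩
      omega
    · rw [Multiset.filter_cons_of_neg _ h2]
      have hc1 : c = 1 := by omega
      generalize Multiset.filter (fun a => 2 ≤ a) s = F at i1 i2 ⊢
      rw [Multiset.sum_cons, Multiset.prod_cons, Multiset.card_cons, hc1, one_mul, ← i1, i2]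
      refine ⟨rfl, ?_⟩
      omega

theorem sr_split (s : Multiset ℕ) (h : ∀ a ∈ s, 0 < a) :
    s = s.filter (fun a => 2 ≤ a) +
      Multiset.replicate (Multiset.card s - Multiset.card (s.filter (fun a => 2 ≤ a))) 1 := by
  have h1 := Multiset.filter_add_not (fun a => 2 ≤ a) s
  have h2 : s.filter (fun a => ¬ 2 ≤ a) =
      Multiset.replicate (Multiset.card (s.filter (fun a => ¬ 2 ≤ a))) 1 := by
    rw [Multiset.eq_replicate]
    refine ⟨rfl, ?_⟩
    intro b hb
    rw [Multiset.mem_filter] at hb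
    have := h b hb.1
    omega
  have h3 : Multiset.card (s.filter (fun a => ¬ 2 ≤ a)) =
      Multiset.card s - Multiset.card (s.filter (fun a => 2 ≤ a)) := by
    have h4 := congrArg Multiset.card h1
    rw [Multiset.card_add] at h4
    omega
  rw [h2, h3] at h1
  exact h1.symm

theorem pf_SR : T_SR := by
  intro k hk
  refine ⟨sr_finite k hk, ?_, sr_prod k hk⟩
  refine Set.ncard_le_ncard_of_injOn (fun s => s.filter (fun a => 2 ≤ a)) ?_ ?_ (sr_finite k hk)
  · intro s hs
    obtain ⟨h1, h2, h3⟩ := hs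
    obtain ⟨i1, i2⟩ := sr_filter s h2
    refine ⟨?_, ?_⟩
    · intro a ha
      exact (Multiset.mem_filter.mp ha).2
    · rw [← i1, h3, i2, h1]
  · intro s hs s' hs' h
    obtain ⟨h1, h2, _⟩ := hs
    obtain ⟨h1', h2', _⟩ := hs'
    have h' : s.filter (fun a => 2 ≤ a) = s'.filter (fun a => 2 ≤ a) := h
    rw [sr_split s h2, sr_split s' h2', h1, h1', h']

end Pool.Agent.H23.NOK
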