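import Pool.Agent.H26.NO.Targets
import Pool.Agent.H19.MS.MER
import Pool.Agent.H19.MS.L1

/-! Row TH of board nok_modules (MP_0cd084_nt). -/

set_option autoImplicit false

open Finset

namespace Pool.Agent.H23.NOK

open Pool.Agent.H26.NO

theorem pf_TH : T_TH := by
  obtain ⟨C, hC, H⟩ :=
    Pool.Agent.H19.MS.pf_MER (Pool.Agent.H19.MS.pf_MC Pool.Agent.H19.MS.pf_L1)
  refine ⟨4 + 4 * C, by positivity, ?_⟩
  intro u v hu huv
  have hv : 1 ≤ v := hu.trans huv
  have hu0 : 0 < u := by linarith
  have hv0 : 0 < v := by linarith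
  have heu : 2 < Real.exp u := by
    have h1 := Real.exp_one_gt_d9
    have h2 : Real.exp 1 ≤ Real.exp u := Real.exp_le_exp.mpr hu
    linarith
  have hev : 2 < Real.exp v := by
    have h2 : Real.exp u ≤ Real.exp v := Real.exp_le_exp.mpr huv
    linarith
  set z : ℕ := ⌊Real.exp u⌋₊ with hz
  set x : ℕ := ⌊Real.exp v⌋₊ with hx
  have hz2 : 2 ≤ z := Nat.le_floor (by exact_mod_cast heu.le)
  have hx2 : 2 ≤ x := Nat.le_floor (by exact_mod_cast hev.le)
  have hzx : z ≤ x := Nat.floor_le_floor (Real.exp_le_exp.mpr huv)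
  have hM := (H z x hz2 hzx).1
  have hsum : ∑ p ∈ Ioc z x, Pool.Agent.H44.MS.ic p.Prime / (p : ℝ) =
      ∑ p ∈ LW u v, (1 : ℝ) / p := by
    unfold LW
    rw [← hz, ← hx, Finset.sum_filter]
    refine Finset.sum_congr rfl (fun p _ => ?_)
    unfold Pool.Agent.H44.MS.ic
    by_cases hp : p.Prime
    · simp [hp]
    · simp [hp]
  rw [hsum] at hM
  have hz2' : (2 : ℝ) ≤ z := by exact_mod_cast hz2
  have hx2' : (2 : ℝ) ≤ x := by exact_mod_cast hx2
  have hl2 := Real.log_two_lt_d9
  have hl2' := Real.log_two_gt_d9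
  have hlz : u / 4 ≤ Real.log z := by
    have h1 : Real.exp u < z + 1 := Nat.lt_floor_add_one _
    have h2 : Real.exp u ≤ 2 * z := by linarith
    have h3 : u ≤ Real.log (2 * z) := by
      rw [Real.le_log_iff_exp_le (by linarith)]
      exact h2
    rw [Real.log_mul (by norm_num) (by linarith)] at h3
    linarith
  have hlz' : Real.log z ≤ u := by
    have h1 : (z : ℝ) ≤ Real.exp u := Nat.floor_le (Real.exp_pos _).le
    rw [Real.log_le_iff_le_exp (by linarith)]
    exact h1
  have hlz0 : 0 < Real.log z := by linarith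
  have hllz : Real.log (Real.log z) ≤ Real.log u := Real.log_le_log hlz0 hlz'
  have hlx : (1 : ℝ) / 2 ≤ Real.log x := by
    have : Real.log 2 ≤ Real.log x := Real.log_le_log (by norm_num) hx2'
    linarith
  have hexv : Real.exp v < x + 1 := Nat.lt_floor_add_one _
  have h5 : v ≤ Real.log x + 1 / x := by
    have h1 : v ≤ Real.log (x + 1) := by
      rw [Real.le_log_iff_exp_le (by linarith)]
      exact hexv.le
    have h2 : Real.log (x + 1) = Real.log x + Real.log (1 + 1 / x) := by
      rw [← Real.log_mul (by linarith) (by positivity)]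
      congr 1
      field_simp
    have h3 : Real.log (1 + 1 / x) ≤ 1 / x := by
      have := Real.log_le_sub_one_of_pos (show (0 : ℝ) < 1 + 1 / x by positivity)
      linarith
    linarith
  have h6 : Real.log v ≤ Real.log (Real.log x) + 4 / v := by
    have h1 : Real.log v ≤ Real.log (Real.log x + 1 / x) := Real.log_le_log hv0 h5
    have h2 : Real.log (Real.log x + 1 / x) =
        Real.log (Real.log x) + Real.log (1 + 1 / (x * Real.log x)) := by
      rw [← Real.log_mul (by linarith) (by positivity)]
      congr 1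
      field_simp
    have h3 : Real.log (1 + 1 / (x * Real.log x)) ≤ 1 / (x * Real.log x) := by
      have := Real.log_le_sub_one_of_pos (show (0 : ℝ) < 1 + 1 / (x * Real.log x) by positivity)
      linarith
    have h4 : 1 / (x * Real.log x) ≤ 4 / v := by
      rw [div_le_div_iff₀ (by positivity) hv0]
      have h7 : v + 1 ≤ Real.exp v := Real.add_one_le_exp v
      have h8 : v ≤ x := by linarith
      nlinarith
    linarith
  have h7 : 4 / v ≤ 4 / u := div_le_div_of_nonneg_left (by norm_num) hu0 huv
  have h8 : C / Real.log z ≤ 4 * C / u := by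
    rw [div_le_div_iff₀ hlz0 hu0]
    nlinarith
  rw [Real.log_div (by linarith) (by linarith)]
  have h9 := (abs_le.mp hM).1
  have h10 : (4 + 4 * C) / u = 4 / u + 4 * C / u := by ring
  rw [h10]
  linarith

end Pool.Agent.H23.NOK
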